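import Pool.Agent.Q321.HL.Few

/-!
Integral points of the curves with full rational 2-torsion: the exceptional points.
-/

set_option autoImplicit false

namespace Pool.Agent.Q321.HL

open Finset Pool.Agent.Y913.Nb Pool.Agent.Y913.Zm Pool.Agent.Q130.SZ

lemma NB.one {Y : ℝ} {m : ℕ} (hm : 0 < m) (h : (m : ℝ) ≤ Y) : NB 1 Y m :=
  ⟨fun _ => m, fun _ => 1, fun _ => ⟨hm, h⟩, by simp⟩

/-- the pair attached to two of the three factors -/
lemma pair_of {A B e f g x y : ℤ} {n R : ℕ} (h : Split A B e f g)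
    (hD : 4 * A ^ 3 + 27 * B ^ 2 ≠ 0) (hxy : y ^ 2 = (x - e) * (x - f) * (x - g))
    (hx : 5 * (ht A B : ℤ) < |x|) (hn : cplx A B y ≤ n) (hR : 1 ≤ R) (hH : 1 ≤ ht A B)
    (hr : (rd y : ℝ) ≤ (4 * (ht A B : ℝ)) ^ R) :
    ∃ q : ℕ × ℕ, NP (n + 1) ((4 * (ht A B : ℝ)) ^ R) q ∧
      |(x : ℝ)| ≤ 8 * (ht A B : ℝ) * ((q.1 + q.2 : ℕ) : ℝ) ∧
      ((((x - f : ℤ) : ℚ) = (((q.1 + q.2 : ℕ) : ℚ) / (q.1 : ℚ)) * ((x - e : ℤ) : ℚ)) ∨
        ((x - f : ℤ) : ℚ) = ((q.1 : ℚ) / ((q.1 + q.2 : ℕ) : ℚ)) * ((x - e : ℤ) : ℚ)) := by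
  classical
  obtain ⟨H, hHd⟩ : ∃ H : ℕ, H = ht A B := ⟨_, rfl⟩
  have hdisc := h.disc
  have he : |e| ≤ 2 * (H : ℤ) := by rw [hHd]; exact h.root_le
  have hf : |f| ≤ 2 * (H : ℤ) := by
    rw [hHd]
    have h' : Split A B f e g := ⟨by linarith [h.1], by linarith [h.2.1], by
      have := h.2.2
      linarith⟩
    exact h'.root_le
  have hg : |g| ≤ 2 * (H : ℤ) := by
    rw [hHd]
    have h' : Split A B g e f := ⟨by linarith [h.1], by linarith [h.2.1], by
      have := h.2.2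
      linarith⟩
    exact h'.root_le
  rw [← hHd] at hx hr hH ⊢
  have hH1 : (1 : ℤ) ≤ H := by exact_mod_cast hH
  have hef : e ≠ f := by
    rintro rfl
    apply hD
    rw [hdisc]
    ring
  -- signs
  have hsgn : (0 < x - e ∧ 0 < x - f ∧ 0 < x - g) ∨ (x - e < 0 ∧ x - f < 0 ∧ x - g < 0) := by
    have a1 := abs_le.1 he
    have a2 := abs_le.1 hf
    have a3 := abs_le.1 hg
    rcases le_total 0 x with h0 | h0
    · rw [abs_of_nonneg h0] at hx
      left
      refine ⟨by linarith [a1.2], by linarith [a2.2], by linarith [a3.2]⟩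
    · rw [abs_of_nonpos h0] at hx
      right
      refine ⟨by linarith [a1.1], by linarith [a2.1], by linarith [a3.1]⟩
  obtain ⟨u, hu⟩ : ∃ u, u = x - e := ⟨_, rfl⟩
  obtain ⟨v, hv⟩ : ∃ v, v = x - f := ⟨_, rfl⟩
  obtain ⟨w, hw⟩ : ∃ w, w = x - g := ⟨_, rfl⟩
  rw [← hu, ← hv, ← hw] at hsgn
  rw [← hu, ← hv]
  have huvw : u * v * w = y ^ 2 := by rw [hxy, hu, hv, hw]
  have hu0 : u ≠ 0 := by rcases hsgn with h0 | h0 <;> [exact h0.1.ne'; exact h0.1.ne]
  have hv0 : v ≠ 0 := by rcases hsgn with h0 | h0 <;> [exact h0.2.1.ne'; exact h0.2.1.ne]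
  have hw0 : w ≠ 0 := by rcases hsgn with h0 | h0 <;> [exact h0.2.2.ne'; exact h0.2.2.ne]
  have hy : y ≠ 0 := by
    rintro rfl
    have : u * v * w ≠ 0 := mul_ne_zero (mul_ne_zero hu0 hv0) hw0
    apply this
    rw [huvw]
    ring
  obtain ⟨c, hc⟩ : ∃ c, c = Nat.gcd u.natAbs v.natAbs := ⟨_, rfl⟩
  have hc0 : 0 < c := by
    rw [hc]
    exact Nat.gcd_pos_of_pos_left _ (Int.natAbs_pos.2 hu0)
  obtain ⟨a, ha⟩ : c ∣ u.natAbs := by rw [hc]; exact Nat.gcd_dvd_left _ _
  obtain ⟨b, hb⟩ : c ∣ v.natAbs := by rw [hc]; exact Nat.gcd_dvd_right _ _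
  have hcop : Nat.Coprime a b := by
    have h1 : Nat.gcd (c * a) (c * b) = c := by rw [← ha, ← hb, ← hc]
    rw [Nat.gcd_mul_left] at h1
    exact Nat.eq_of_mul_eq_mul_left hc0 (by rw [h1, mul_one])
  have ha0 : 0 < a := by
    rcases Nat.eq_zero_or_pos a with h0 | h0
    · rw [h0, mul_zero] at ha
      exact absurd (Int.natAbs_eq_zero.1 ha) hu0
    · exact h0
  have hb0 : 0 < b := by
    rcases Nat.eq_zero_or_pos b with h0 | h0
    · rw [h0, mul_zero] at hb
      exact absurd (Int.natAbs_eq_zero.1 hb) hv0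
    · exact h0
  have hcu : (c : ℤ) ∣ u := Int.natCast_dvd.2 ⟨a, ha⟩
  have hcv : (c : ℤ) ∣ v := Int.natCast_dvd.2 ⟨b, hb⟩
  -- common divisors divide the discriminant
  have hdvd : ∀ p : ℕ, ((p : ℤ) ∣ u ∧ (p : ℤ) ∣ v) ∨ ((p : ℤ) ∣ u ∧ (p : ℤ) ∣ w) ∨
      ((p : ℤ) ∣ v ∧ (p : ℤ) ∣ w) → (p : ℤ) ∣ 4 * A ^ 3 + 27 * B ^ 2 := by
    intro p hp
    rw [hdisc]
    rcases hp with h0 | h0 | h0
    · have h1 : (p : ℤ) ∣ e - f := by
        have := dvd_sub h0.2 h0.1
        rw [hu, hv] at this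
        have e1 : x - f - (x - e) = e - f := by ring
        rwa [e1] at this
      exact (dvd_neg.2 (Dvd.dvd.pow (Dvd.dvd.mul_right (Dvd.dvd.mul_right h1 _) _) two_ne_zero))
    · have h1 : (p : ℤ) ∣ e - g := by
        have := dvd_sub h0.2 h0.1
        rw [hu, hw] at this
        have e1 : x - g - (x - e) = e - g := by ring
        rwa [e1] at this
      exact (dvd_neg.2 (Dvd.dvd.pow (Dvd.dvd.mul_right (Dvd.dvd.mul_left h1 _) _) two_ne_zero))
    · have h1 : (p : ℤ) ∣ f - g := by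
        have := dvd_sub h0.2 h0.1
        rw [hv, hw] at this
        have e1 : x - g - (x - f) = f - g := by ring
        rwa [e1] at this
      exact (dvd_neg.2 (Dvd.dvd.pow (Dvd.dvd.mul_left h1 _) two_ne_zero))
  have hcD : ∀ p : ℕ, p.Prime → p ∣ c → (p : ℤ) ∣ 4 * A ^ 3 + 27 * B ^ 2 := by
    intro p _ hpc
    have h1 : (p : ℤ) ∣ (c : ℤ) := by exact_mod_cast hpc
    exact hdvd p (Or.inl ⟨h1.trans hcu, h1.trans hcv⟩)
  have hY1 : (1 : ℝ) ≤ (4 * (H : ℝ)) ^ R := by
    apply one_le_pow₀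
    have : (1 : ℝ) ≤ H := by exact_mod_cast hH
    linarith
  have hNa : NB n ((4 * (H : ℝ)) ^ R) a := by
    refine nb_part hy huvw ha hcD ?_ hn hY1 hr
    intro p hp h1 h2
    rcases (Nat.prime_iff_prime_int.1 hp).dvd_or_dvd h2 with h3 | h3
    · exact hdvd p (Or.inl ⟨h1, h3⟩)
    · exact hdvd p (Or.inr (Or.inl ⟨h1, h3⟩))
  have hNb : NB n ((4 * (H : ℝ)) ^ R) b := by
    have h9 : v * u * w = y ^ 2 := by rw [← huvw]; ring
    refine nb_part hy h9 hb hcD ?_ hn hY1 hr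
    intro p hp h1 h2
    rcases (Nat.prime_iff_prime_int.1 hp).dvd_or_dvd h2 with h3 | h3
    · exact hdvd p (Or.inl ⟨h3, h1⟩)
    · exact hdvd p (Or.inr (Or.inr ⟨h1, h3⟩))
  -- the difference
  have hdiff : (c : ℤ) * ((b : ℤ) - a) = e - f ∨ (c : ℤ) * ((b : ℤ) - a) = f - e := by
    have h1 : ((u.natAbs : ℕ) : ℤ) = c * a := by rw [ha]; push_cast; ring
    have h2 : ((v.natAbs : ℕ) : ℤ) = c * b := by rw [hb]; push_cast; ring
    rcases hsgn with h0 | h0
    · left
      rw [Int.natCast_natAbs, abs_of_pos h0.1] at h1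
      rw [Int.natCast_natAbs, abs_of_pos h0.2.1] at h2
      rw [mul_sub, ← h1, ← h2, hu, hv]
      ring
    · right
      rw [Int.natCast_natAbs, abs_of_neg h0.1] at h1
      rw [Int.natCast_natAbs, abs_of_neg h0.2.1] at h2
      rw [mul_sub, ← h1, ← h2, hu, hv]
      ring
  have hdle : (c : ℤ) * |(b : ℤ) - a| ≤ 4 * H ∧ 0 < |(b : ℤ) - a| := by
    have h1 : (c : ℤ) * |(b : ℤ) - a| = |e - f| := by
      have h2 : (c : ℤ) * |(b : ℤ) - a| = |(c : ℤ) * ((b : ℤ) - a)| := by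
        rw [abs_mul, abs_of_nonneg (Int.natCast_nonneg c)]
      rw [h2]
      rcases hdiff with h3 | h3
      · rw [h3]
      · rw [h3, abs_sub_comm]
    constructor
    · rw [h1]
      have := abs_sub e f
      linarith
    · rw [abs_pos]
      intro h2
      rw [h2, abs_zero, mul_zero] at h1
      exact hef (sub_eq_zero.1 (abs_eq_zero.1 h1.symm))
  have hc4 : (c : ℤ) ≤ 4 * H := by
    have h1 : (1 : ℤ) ≤ |(b : ℤ) - a| := hdle.2
    have h2 : (0 : ℤ) < c := by exact_mod_cast hc0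
    nlinarith [hdle.1]
  have hab : a ≠ b := by
    rintro rfl
    simp at hdle
  have hq2 : (((max a b - min a b : ℕ) : ℤ)) = |(b : ℤ) - a| := by
    rcases le_total a b with h1 | h1
    · rw [max_eq_right h1, min_eq_left h1, Nat.cast_sub h1, abs_of_nonneg]
      have : (a : ℤ) ≤ b := by exact_mod_cast h1
      linarith
    · rw [max_eq_left h1, min_eq_right h1, Nat.cast_sub h1, abs_of_nonpos]
      · ring
      · have : (b : ℤ) ≤ a := by exact_mod_cast h1
        linarith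
  have hq2le : ((max a b - min a b : ℕ) : ℤ) ≤ 4 * H := by
    rw [hq2]
    have h2 : (1 : ℤ) ≤ c := by exact_mod_cast hc0
    nlinarith [hdle.1, hdle.2]
  have hq2pos : 0 < max a b - min a b := by
    have := hdle.2
    rw [← hq2] at this
    exact_mod_cast this
  have hq2Y : (((max a b - min a b : ℕ)) : ℝ) ≤ (4 * (H : ℝ)) ^ R := by
    have h1 : (((max a b - min a b : ℕ)) : ℝ) ≤ 4 * (H : ℝ) := by exact_mod_cast hq2le
    refine h1.trans ?_
    have h2 : (1 : ℝ) ≤ 4 * (H : ℝ) := by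
      have : (1 : ℝ) ≤ H := by exact_mod_cast hH
      linarith
    calc 4 * (H : ℝ) = (4 * (H : ℝ)) ^ 1 := (pow_one _).symm
      _ ≤ _ := pow_le_pow_right₀ h2 hR
  refine ⟨pr a b, ⟨?_, hq2pos, ?_, ?_, ?_, ?_⟩, ?_, ?_⟩
  · exact lt_min ha0 hb0
  · show Nat.Coprime (min a b) (max a b - min a b)
    rcases le_total a b with h1 | h1
    · rw [max_eq_right h1, min_eq_left h1]
      exact (Nat.coprime_sub_self_right h1).2 hcop
    · rw [max_eq_left h1, min_eq_right h1]
      exact (Nat.coprime_sub_self_right h1).2 hcop.symm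
  · show NB (n + 1) _ (min a b)
    rcases le_total a b with h1 | h1
    · rw [min_eq_left h1]; exact hNa.mono_n hY1 (Nat.le_succ n)
    · rw [min_eq_right h1]; exact hNb.mono_n hY1 (Nat.le_succ n)
  · exact (NB.one hq2pos hq2Y).mono_n hY1 (Nat.le_add_left 1 n)
  · rw [pr_sum]
    rcases le_total a b with h1 | h1
    · rw [max_eq_right h1]; exact hNb.mono_n hY1 (Nat.le_succ n)
    · rw [max_eq_left h1]; exact hNa.mono_n hY1 (Nat.le_succ n)
  · rw [pr_sum]
    have h1 : |x| ≤ 2 * |u| := by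
      have h2 : x = u + e := by rw [hu]; ring
      have h3 : |x| ≤ |u| + |e| := by
        conv_lhs => rw [h2]
        exact abs_add_le _ _
      linarith
    have h2 : |u| = (c : ℤ) * a := by
      rw [Int.abs_eq_natAbs, ha]
      push_cast
      ring
    have h3 : (a : ℤ) ≤ max a b := by exact_mod_cast le_max_left a b
    have h4 : |x| ≤ 8 * H * ((max a b : ℕ) : ℤ) := by
      have h5 : (0 : ℤ) ≤ a := Int.natCast_nonneg a
      calc |x| ≤ 2 * ((c : ℤ) * a) := by rw [← h2]; exact h1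
        _ ≤ 2 * ((4 * H) * a) := by
            have := mul_le_mul_of_nonneg_right hc4 h5
            linarith
        _ ≤ 8 * H * ((max a b : ℕ) : ℤ) := by
            have h6 : (0 : ℤ) ≤ 8 * H := by linarith
            have h7 : (a : ℤ) ≤ ((max a b : ℕ) : ℤ) := by exact_mod_cast le_max_left a b
            have := mul_le_mul_of_nonneg_left h7 h6
            linarith
    exact_mod_cast h4
  · -- ratios
    have haq : (a : ℚ) ≠ 0 := by exact_mod_cast ha0.ne'
    have hbq : (b : ℚ) ≠ 0 := by exact_mod_cast hb0.ne'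
    have hrat : (v : ℚ) * a = b * u := by
      have h1 : (v : ℤ) * a = b * u := by
        have h1 : ((u.natAbs : ℕ) : ℤ) = c * a := by rw [ha]; push_cast; ring
        have h2 : ((v.natAbs : ℕ) : ℤ) = c * b := by rw [hb]; push_cast; ring
        rcases hsgn with h0 | h0
        · rw [Int.natCast_natAbs, abs_of_pos h0.1] at h1
          rw [Int.natCast_natAbs, abs_of_pos h0.2.1] at h2
          rw [h1, h2]; ring
        · rw [Int.natCast_natAbs, abs_of_neg h0.1] at h1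
          rw [Int.natCast_natAbs, abs_of_neg h0.2.1] at h2
          have h3 : u = -(c * a) := by linarith
          have h4 : v = -(c * b) := by linarith
          rw [h3, h4]; ring
      exact_mod_cast h1
    rw [pr_sum]
    show (v : ℚ) = ((max a b : ℕ) : ℚ) / ((min a b : ℕ) : ℚ) * u ∨
      (v : ℚ) = ((min a b : ℕ) : ℚ) / ((max a b : ℕ) : ℚ) * u
    rcases le_total a b with h1 | h1
    · left
      rw [max_eq_right h1, min_eq_left h1]
      field_simp
      linarith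
    · right
      rw [max_eq_left h1, min_eq_right h1]
      field_simp
      linarith

/-- a property with a bound for its finite subsets -/
lemma fin_of_bound {α : Type*} (P : α → Prop) (b : ℝ)
    (h : ∀ Q : Finset α, (∀ q ∈ Q, P q) → (Q.card : ℝ) ≤ b) :
    ∃ T : Finset α, (∀ q, P q → q ∈ T) ∧ (T.card : ℝ) ≤ b := by
  classical
  have hfin : {q | P q}.Finite := by
    by_contra hinf
    obtain ⟨F, hF, hFc⟩ := Set.Infinite.exists_subset_card_eq hinf (⌊b⌋₊ + 1)
    have h1 := h F (fun q hq => hF (Finset.mem_coe.2 hq))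
    rw [hFc] at h1
    have h2 := Nat.lt_floor_add_one b
    push_cast at h1 h2
    linarith
  refine ⟨hfin.toFinset, fun q hq => by simpa using hq, h _ (fun q hq => by simpa using hq)⟩

end Pool.Agent.Q321.HL
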