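import Pool.Agent.Q130.SZ.Line

/-!
Integral points of the curves `y ^ 2 = (x - e) (x - f) (x - g)`: the ratios of the numbers
`x - e`, `x - f`, `x - g`.
-/

set_option autoImplicit false

namespace Pool.Agent.Q321.HL

open Finset Pool.Agent.Y913.Nb Pool.Agent.Y913.Zm Pool.Agent.Q130.SZ

/-- the roots of `t ^ 3 + A t + B` are `e`, `f`, `g` -/
def Split (A B e f g : ℤ) : Prop := e + f + g = 0 ∧ e * f + e * g + f * g = A ∧ e * f * g = -B

lemma Split.disc {A B e f g : ℤ} (h : Split A B e f g) :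
    4 * A ^ 3 + 27 * B ^ 2 = -((e - f) * (e - g) * (f - g)) ^ 2 := by
  obtain ⟨h1, h2, h3⟩ := h
  have hg : g = -e - f := by linarith
  have hB : B = -(e * f * g) := by linarith
  subst hg
  rw [hB, ← h2]
  ring

lemma Split.cubic {A B e f g : ℤ} (h : Split A B e f g) (t : ℤ) :
    t ^ 3 + A * t + B = (t - e) * (t - f) * (t - g) := by
  obtain ⟨h1, h2, h3⟩ := h
  have hg : g = -e - f := by linarith
  have hB : B = -(e * f * g) := by linarith
  subst hg
  rw [hB, ← h2]
  ring

lemma split_of_cubic {A B e f g : ℤ}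
    (h : ∀ t : ℤ, t ^ 3 + A * t + B = (t - e) * (t - f) * (t - g)) : Split A B e f g := by
  have h0 := h 0
  have h1 := h 1
  have h2 := h (-1)
  refine ⟨?_, ?_, ?_⟩ <;> linarith

/-- the height of the curve -/
def ht (A B : ℤ) : ℕ := max A.natAbs B.natAbs

lemma Split.root_le {A B e f g : ℤ} (h : Split A B e f g) : |e| ≤ 2 * (ht A B : ℤ) := by
  obtain ⟨h1, h2, h3⟩ := h
  have hA : |A| ≤ (ht A B : ℤ) := by
    unfold ht
    rw [Int.abs_eq_natAbs]
    exact_mod_cast le_max_left _ _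
  have h4 : e ^ 2 + f ^ 2 + g ^ 2 = -2 * A := by
    have : (e + f + g) ^ 2 = 0 := by rw [h1]; ring
    nlinarith
  have h5 : e ^ 2 ≤ 2 * (ht A B : ℤ) := by
    have := neg_abs_le A
    nlinarith [sq_nonneg f, sq_nonneg g]
  have h6 : 0 ≤ (ht A B : ℤ) := Int.natCast_nonneg _
  by_contra hcon
  push Not at hcon
  have h7 : |e| ^ 2 = e ^ 2 := sq_abs e
  rcases h6.lt_or_eq with h8 | h8
  · have h9 : 1 ≤ (ht A B : ℤ) := h8
    nlinarith
  · rw [← h8] at h5 hcon
    nlinarith [abs_nonneg e]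

/-- a coprime pair with its two ratios -/
def pr (a b : ℕ) : ℕ × ℕ := (min a b, max a b - min a b)

lemma pr_sum (a b : ℕ) : (pr a b).1 + (pr a b).2 = max a b := by
  unfold pr
  simp only
  omega

/-- the conditions on the ordinate -/
def cplx (A B y : ℤ) : ℕ :=
  ((y.natAbs.primeFactors.filter (fun p : ℕ => ¬ (p : ℤ) ∣ 4 * A ^ 3 + 27 * B ^ 2)).image
    (fun p => y.natAbs.factorization p)).card +
  (y.natAbs.primeFactors.filter (fun p : ℕ => (p : ℤ) ∣ 4 * A ^ 3 + 27 * B ^ 2)).card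

/-- the product of the primes dividing `y` -/
def rd (y : ℤ) : ℕ := ∏ p ∈ y.natAbs.primeFactors, p

lemma le_rd {y : ℤ} {p : ℕ} (hp : p ∈ y.natAbs.primeFactors) : p ≤ rd y := by
  unfold rd
  refine Nat.le_of_dvd (prod_pos fun q hq => (Nat.prime_of_mem_primeFactors hq).pos)
    (dvd_prod_of_mem _ hp)

/-- a divisor of `u` is a product of few powers, if `u v w = y ^ 2` and the common primes of `u`
with `v w` divide the discriminant -/
lemma nb_part {A B y u v w : ℤ} {n a c : ℕ} {Y : ℝ} (hy : y ≠ 0) (h : u * v * w = y ^ 2)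
    (hac : u.natAbs = c * a)
    (hcD : ∀ p : ℕ, p.Prime → p ∣ c → (p : ℤ) ∣ 4 * A ^ 3 + 27 * B ^ 2)
    (hD : ∀ p : ℕ, p.Prime → (p : ℤ) ∣ u → (p : ℤ) ∣ v * w → (p : ℤ) ∣ 4 * A ^ 3 + 27 * B ^ 2)
    (hn : cplx A B y ≤ n) (hY : 1 ≤ Y) (hr : (rd y : ℝ) ≤ Y) : NB n Y a := by
  classical
  have hu : u ≠ 0 := by
    rintro rfl
    apply hy
    have : y ^ 2 = 0 := by rw [← h]; ring
    exact pow_eq_zero_iff (two_ne_zero) |>.1 this
  have hua : u.natAbs ≠ 0 := Int.natAbs_ne_zero.2 hu
  have hvw : v * w ≠ 0 := by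
    intro h0
    apply hy
    have : y ^ 2 = 0 := by rw [← h, mul_assoc, h0]; ring
    exact pow_eq_zero_iff (two_ne_zero) |>.1 this
  have ha : 0 < a := by
    rcases Nat.eq_zero_or_pos a with h0 | h0
    · rw [h0, mul_zero] at hac
      exact absurd hac hua
    · exact h0
  have hc : c ≠ 0 := by
    rintro rfl
    rw [zero_mul] at hac
    exact hua hac
  have hyn : y.natAbs ≠ 0 := Int.natAbs_ne_zero.2 hy
  -- primes of `a` divide `y`
  have hpy : ∀ p ∈ a.primeFactors, p ∈ y.natAbs.primeFactors := by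
    intro p hp
    have hpp := Nat.prime_of_mem_primeFactors hp
    have h1 : p ∣ u.natAbs := by
      rw [hac]
      exact (Nat.dvd_of_mem_primeFactors hp).mul_left _
    have h2 : p ∣ y.natAbs ^ 2 := by
      rw [← Int.natAbs_pow, ← h, Int.natAbs_mul, Int.natAbs_mul, mul_assoc]
      exact h1.mul_right _
    exact Nat.mem_primeFactors.2 ⟨hpp, hpp.dvd_of_dvd_pow h2, hyn⟩
  set S := y.natAbs.primeFactors.filter (fun p : ℕ => (p : ℤ) ∣ 4 * A ^ 3 + 27 * B ^ 2) with hS
  set T := y.natAbs.primeFactors.filter (fun p : ℕ => ¬ (p : ℤ) ∣ 4 * A ^ 3 + 27 * B ^ 2) with hT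
  have hfac : ∀ p ∈ a.primeFactors \ S, p ∈ T ∧ a.factorization p = 2 * y.natAbs.factorization p := by
    intro p hp
    rw [mem_sdiff] at hp
    have hpp := Nat.prime_of_mem_primeFactors hp.1
    have h1 := hpy p hp.1
    have h2 : ¬ (p : ℤ) ∣ 4 * A ^ 3 + 27 * B ^ 2 := by
      intro h3
      exact hp.2 (mem_filter.2 ⟨h1, h3⟩)
    refine ⟨mem_filter.2 ⟨h1, h2⟩, ?_⟩
    have h3 : p ∣ u.natAbs := by
      rw [hac]
      exact (Nat.dvd_of_mem_primeFactors hp.1).mul_left _
    have h4 : ¬ p ∣ (v * w).natAbs := by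
      intro h5
      exact h2 (hD p hpp (Int.natCast_dvd.2 h3) (Int.natCast_dvd.2 h5))
    have h5 : ¬ p ∣ c := fun h6 => h2 (hcD p hpp h6)
    have h6 : (c * a * (v * w).natAbs).factorization p = (y.natAbs ^ 2).factorization p := by
      rw [← hac, ← Int.natAbs_mul, ← mul_assoc, h, Int.natAbs_pow]
    rw [Nat.factorization_mul (mul_ne_zero hc ha.ne') (Int.natAbs_ne_zero.2 hvw),
      Nat.factorization_mul hc ha.ne', Nat.factorization_pow] at h6
    simp only [Finsupp.add_apply, Finsupp.smul_apply, smul_eq_mul] at h6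
    rw [Nat.factorization_eq_zero_of_not_dvd h4, Nat.factorization_eq_zero_of_not_dvd h5] at h6
    omega
  have key : NB ((T.image (fun p => y.natAbs.factorization p)).card + S.card) Y a := by
    refine nb_of_exps S ha hY ?_ ?_ ?_
    · intro p hp
      refine le_trans ?_ hr
      exact_mod_cast le_rd (mem_filter.1 hp).1
    · refine le_trans ?_ hr
      have : ∏ p ∈ a.primeFactors \ S, p ≤ rd y := by
        unfold rd
        refine prod_le_prod_of_subset_of_one_le' ?_ ?_
        · intro p hp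
          exact (mem_filter.1 (hfac p hp).1).1
        · intro p hp _
          exact (Nat.prime_of_mem_primeFactors hp).one_le
      exact_mod_cast this
    · have : (a.primeFactors \ S).image (fun p => a.factorization p) ⊆
          (T.image (fun p => y.natAbs.factorization p)).image (fun k => 2 * k) := by
        intro k hk
        obtain ⟨p, hp, rfl⟩ := mem_image.1 hk
        refine mem_image.2 ⟨y.natAbs.factorization p, mem_image_of_mem _ (hfac p hp).1, ?_⟩
        exact (hfac p hp).2.symm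
      exact (card_le_card this).trans card_image_le
  exact key.mono_n hY hn

end Pool.Agent.Q321.HL
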