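import Pool.Agent.Q321.HL.Count

/-!
Two factors of a square with a small difference: the pair of coprime integers with few exponents.
-/

set_option autoImplicit false

namespace Pool.Agent.Q321.HL

open Finset Pool.Agent.Y913.Nb Pool.Agent.Y913.Zm Pool.Agent.Q130.SZ

/-- the number of exponents of the primes not dividing `D`, plus the number of the primes dividing
`D` -/
def cp (D y : ℤ) : ℕ :=
  ((y.natAbs.primeFactors.filter (fun p : ℕ => ¬ (p : ℤ) ∣ D)).image
    (fun p => y.natAbs.factorization p)).card +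
  (y.natAbs.primeFactors.filter (fun p : ℕ => (p : ℤ) ∣ D)).card

/-- a divisor of `u` is a product of few powers, if `u z = y ^ m` and the common primes of `u`
and `z` divide `D` -/
lemma nb_gen {D y u z : ℤ} {m n a c : ℕ} {Y : ℝ} (hy : y ≠ 0) (h : u * z = y ^ m)
    (hac : u.natAbs = c * a)
    (hcD : ∀ p : ℕ, p.Prime → p ∣ c → (p : ℤ) ∣ D)
    (hD : ∀ p : ℕ, p.Prime → (p : ℤ) ∣ u → (p : ℤ) ∣ z → (p : ℤ) ∣ D)
    (hn : cp D y ≤ n) (hY : 1 ≤ Y) (hr : (rd y : ℝ) ≤ Y) : NB n Y a := by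
  classical
  have hym : y ^ m ≠ 0 := pow_ne_zero _ hy
  have hu : u ≠ 0 := by
    rintro rfl
    rw [zero_mul] at h
    exact hym h.symm
  have hz : z ≠ 0 := by
    rintro rfl
    rw [mul_zero] at h
    exact hym h.symm
  have hua : u.natAbs ≠ 0 := Int.natAbs_ne_zero.2 hu
  have ha : 0 < a := by
    rcases Nat.eq_zero_or_pos a with h0 | h0
    · rw [h0, mul_zero] at hac
      exact absurd hac hua
    · exact h0
  have hc : c ≠ 0 := by
    rintro rfl
    rw [zero_mul] at hac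
    exact hua hac
  have hyn : y.natAbs ≠ 0 := Int.natAbs_ne_zero.2 hy
  have hpy : ∀ p ∈ a.primeFactors, p ∈ y.natAbs.primeFactors := by
    intro p hp
    have hpp := Nat.prime_of_mem_primeFactors hp
    have h1 : p ∣ u.natAbs := by
      rw [hac]
      exact (Nat.dvd_of_mem_primeFactors hp).mul_left _
    have h2 : p ∣ y.natAbs ^ m := by
      rw [← Int.natAbs_pow, ← h, Int.natAbs_mul]
      exact h1.mul_right _
    exact Nat.mem_primeFactors.2 ⟨hpp, hpp.dvd_of_dvd_pow h2, hyn⟩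
  set S := y.natAbs.primeFactors.filter (fun p : ℕ => (p : ℤ) ∣ D) with hS
  set T := y.natAbs.primeFactors.filter (fun p : ℕ => ¬ (p : ℤ) ∣ D) with hT
  have hfac : ∀ p ∈ a.primeFactors \ S, p ∈ T ∧ a.factorization p = m * y.natAbs.factorization p := by
    intro p hp
    rw [mem_sdiff] at hp
    have hpp := Nat.prime_of_mem_primeFactors hp.1
    have h1 := hpy p hp.1
    have h2 : ¬ (p : ℤ) ∣ D := by
      intro h3
      exact hp.2 (mem_filter.2 ⟨h1, h3⟩)
    refine ⟨mem_filter.2 ⟨h1, h2⟩, ?_⟩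
    have h3 : p ∣ u.natAbs := by
      rw [hac]
      exact (Nat.dvd_of_mem_primeFactors hp.1).mul_left _
    have h4 : ¬ p ∣ z.natAbs := by
      intro h5
      exact h2 (hD p hpp (Int.natCast_dvd.2 h3) (Int.natCast_dvd.2 h5))
    have h5 : ¬ p ∣ c := fun h6 => h2 (hcD p hpp h6)
    have h6 : (c * a * z.natAbs).factorization p = (y.natAbs ^ m).factorization p := by
      rw [← hac, ← Int.natAbs_mul, h, Int.natAbs_pow]
    rw [Nat.factorization_mul (mul_ne_zero hc ha.ne') (Int.natAbs_ne_zero.2 hz),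
      Nat.factorization_mul hc ha.ne', Nat.factorization_pow] at h6
    simp only [Finsupp.add_apply, Finsupp.smul_apply, smul_eq_mul] at h6
    rw [Nat.factorization_eq_zero_of_not_dvd h4, Nat.factorization_eq_zero_of_not_dvd h5] at h6
    omega
  have key : NB ((T.image (fun p => y.natAbs.factorization p)).card + S.card) Y a := by
    refine nb_of_exps S ha hY ?_ ?_ ?_
    · intro p hp
      refine le_trans ?_ hr
      exact_mod_cast le_rd (mem_filter.1 hp).1
    · refine le_trans ?_ hr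
      have : ∏ p ∈ a.primeFactors \ S, p ≤ rd y := by
        unfold rd
        refine prod_le_prod_of_subset_of_one_le' ?_ ?_
        · intro p hp
          exact (mem_filter.1 (hfac p hp).1).1
        · intro p hp _
          exact (Nat.prime_of_mem_primeFactors hp).one_le
      exact_mod_cast this
    · have : (a.primeFactors \ S).image (fun p => a.factorization p) ⊆
          (T.image (fun p => y.natAbs.factorization p)).image (fun k => m * k) := by
        intro k hk
        obtain ⟨p, hp, rfl⟩ := mem_image.1 hk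
        refine mem_image.2 ⟨y.natAbs.factorization p, mem_image_of_mem _ (hfac p hp).1, ?_⟩
        exact (hfac p hp).2.symm
      exact (card_le_card this).trans card_image_le
  exact key.mono_n hY hn

/-- the pair attached to two factors of a power with a small difference -/
lemma pair_gen {D y u v t : ℤ} {m n R H : ℕ} (hy : y ≠ 0) (huvw : u * v * t = y ^ m)
    (hsgn : (0 < u ∧ 0 < v) ∨ (u < 0 ∧ v < 0)) (hne : u ≠ v) (hle : |u - v| ≤ 4 * (H : ℤ))
    (h1D : ∀ p : ℕ, p.Prime → (p : ℤ) ∣ u → (p : ℤ) ∣ v → (p : ℤ) ∣ D)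
    (h2D : ∀ p : ℕ, p.Prime → (p : ℤ) ∣ u → (p : ℤ) ∣ t → (p : ℤ) ∣ D)
    (h3D : ∀ p : ℕ, p.Prime → (p : ℤ) ∣ v → (p : ℤ) ∣ t → (p : ℤ) ∣ D)
    (hn : cp D y ≤ n) (hR : 1 ≤ R) (hH : 1 ≤ H)
    (hr : (rd y : ℝ) ≤ (4 * (H : ℝ)) ^ R) :
    ∃ q : ℕ × ℕ, NP (n + 1) ((4 * (H : ℝ)) ^ R) q ∧
      |(u : ℝ)| ≤ 4 * (H : ℝ) * ((q.1 + q.2 : ℕ) : ℝ) ∧
      ((v : ℚ) = (((q.1 + q.2 : ℕ) : ℚ) / (q.1 : ℚ)) * (u : ℚ) ∨
        (v : ℚ) = ((q.1 : ℚ) / ((q.1 + q.2 : ℕ) : ℚ)) * (u : ℚ)) := by
  classical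
  have hH1 : (1 : ℤ) ≤ H := by exact_mod_cast hH
  have hu0 : u ≠ 0 := by rcases hsgn with h0 | h0 <;> [exact h0.1.ne'; exact h0.1.ne]
  have hv0 : v ≠ 0 := by rcases hsgn with h0 | h0 <;> [exact h0.2.ne'; exact h0.2.ne]
  obtain ⟨c, hc⟩ : ∃ c, c = Nat.gcd u.natAbs v.natAbs := ⟨_, rfl⟩
  have hc0 : 0 < c := by
    rw [hc]
    exact Nat.gcd_pos_of_pos_left _ (Int.natAbs_pos.2 hu0)
  obtain ⟨a, ha⟩ : c ∣ u.natAbs := by rw [hc]; exact Nat.gcd_dvd_left _ _
  obtain ⟨b, hb⟩ : c ∣ v.natAbs := by rw [hc]; exact Nat.gcd_dvd_right _ _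
  have hcop : Nat.Coprime a b := by
    have h1 : Nat.gcd (c * a) (c * b) = c := by rw [← ha, ← hb, ← hc]
    rw [Nat.gcd_mul_left] at h1
    exact Nat.eq_of_mul_eq_mul_left hc0 (by rw [h1, mul_one])
  have ha0 : 0 < a := by
    rcases Nat.eq_zero_or_pos a with h0 | h0
    · rw [h0, mul_zero] at ha
      exact absurd (Int.natAbs_eq_zero.1 ha) hu0
    · exact h0
  have hb0 : 0 < b := by
    rcases Nat.eq_zero_or_pos b with h0 | h0
    · rw [h0, mul_zero] at hb
      exact absurd (Int.natAbs_eq_zero.1 hb) hv0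
    · exact h0
  have hcu : (c : ℤ) ∣ u := Int.natCast_dvd.2 ⟨a, ha⟩
  have hcv : (c : ℤ) ∣ v := Int.natCast_dvd.2 ⟨b, hb⟩
  have hcD : ∀ p : ℕ, p.Prime → p ∣ c → (p : ℤ) ∣ D := by
    intro p hp hpc
    have h1 : (p : ℤ) ∣ (c : ℤ) := by exact_mod_cast hpc
    exact h1D p hp (h1.trans hcu) (h1.trans hcv)
  have hY1 : (1 : ℝ) ≤ (4 * (H : ℝ)) ^ R := by
    apply one_le_pow₀
    have : (1 : ℝ) ≤ H := by exact_mod_cast hH
    linarith
  have hNa : NB n ((4 * (H : ℝ)) ^ R) a := by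
    have h9 : u * (v * t) = y ^ m := by rw [← huvw]; ring
    refine nb_gen hy h9 ha hcD ?_ hn hY1 hr
    intro p hp h1 h2
    rcases (Nat.prime_iff_prime_int.1 hp).dvd_or_dvd h2 with h3 | h3
    · exact h1D p hp h1 h3
    · exact h2D p hp h1 h3
  have hNb : NB n ((4 * (H : ℝ)) ^ R) b := by
    have h9 : v * (u * t) = y ^ m := by rw [← huvw]; ring
    refine nb_gen hy h9 hb hcD ?_ hn hY1 hr
    intro p hp h1 h2
    rcases (Nat.prime_iff_prime_int.1 hp).dvd_or_dvd h2 with h3 | h3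
    · exact h1D p hp h3 h1
    · exact h3D p hp h1 h3
  have hdiff : (c : ℤ) * ((b : ℤ) - a) = v - u ∨ (c : ℤ) * ((b : ℤ) - a) = u - v := by
    have h1 : ((u.natAbs : ℕ) : ℤ) = c * a := by rw [ha]; push_cast; ring
    have h2 : ((v.natAbs : ℕ) : ℤ) = c * b := by rw [hb]; push_cast; ring
    rcases hsgn with h0 | h0
    · left
      rw [Int.natCast_natAbs, abs_of_pos h0.1] at h1
      rw [Int.natCast_natAbs, abs_of_pos h0.2] at h2
      rw [mul_sub, ← h1, ← h2]
    · right
      rw [Int.natCast_natAbs, abs_of_neg h0.1] at h1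
      rw [Int.natCast_natAbs, abs_of_neg h0.2] at h2
      rw [mul_sub, ← h1, ← h2]
      ring
  have hdle : (c : ℤ) * |(b : ℤ) - a| ≤ 4 * H ∧ 0 < |(b : ℤ) - a| := by
    have h1 : (c : ℤ) * |(b : ℤ) - a| = |u - v| := by
      have h2 : (c : ℤ) * |(b : ℤ) - a| = |(c : ℤ) * ((b : ℤ) - a)| := by
        rw [abs_mul, abs_of_nonneg (Int.natCast_nonneg c)]
      rw [h2]
      rcases hdiff with h3 | h3
      · rw [h3, abs_sub_comm]
      · rw [h3]
    constructor
    · rw [h1]
      exact hle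
    · rw [abs_pos]
      intro h2
      rw [h2, abs_zero, mul_zero] at h1
      exact hne (sub_eq_zero.1 (abs_eq_zero.1 h1.symm))
  have hc4 : (c : ℤ) ≤ 4 * H := by
    have h1 : (1 : ℤ) ≤ |(b : ℤ) - a| := hdle.2
    have h2 : (0 : ℤ) < c := by exact_mod_cast hc0
    nlinarith [hdle.1]
  have hq2 : (((max a b - min a b : ℕ) : ℤ)) = |(b : ℤ) - a| := by
    rcases le_total a b with h1 | h1
    · rw [max_eq_right h1, min_eq_left h1, Nat.cast_sub h1, abs_of_nonneg]
      have : (a : ℤ) ≤ b := by exact_mod_cast h1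
      linarith
    · rw [max_eq_left h1, min_eq_right h1, Nat.cast_sub h1, abs_of_nonpos]
      · ring
      · have : (b : ℤ) ≤ a := by exact_mod_cast h1
        linarith
  have hq2le : ((max a b - min a b : ℕ) : ℤ) ≤ 4 * H := by
    rw [hq2]
    have h2 : (1 : ℤ) ≤ c := by exact_mod_cast hc0
    nlinarith [hdle.1, hdle.2]
  have hq2pos : 0 < max a b - min a b := by
    have := hdle.2
    rw [← hq2] at this
    exact_mod_cast this
  have hq2Y : (((max a b - min a b : ℕ)) : ℝ) ≤ (4 * (H : ℝ)) ^ R := by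
    have h1 : (((max a b - min a b : ℕ)) : ℝ) ≤ 4 * (H : ℝ) := by exact_mod_cast hq2le
    refine h1.trans ?_
    have h2 : (1 : ℝ) ≤ 4 * (H : ℝ) := by
      have : (1 : ℝ) ≤ H := by exact_mod_cast hH
      linarith
    calc 4 * (H : ℝ) = (4 * (H : ℝ)) ^ 1 := (pow_one _).symm
      _ ≤ _ := pow_le_pow_right₀ h2 hR
  refine ⟨pr a b, ⟨?_, hq2pos, ?_, ?_, ?_, ?_⟩, ?_, ?_⟩
  · exact lt_min ha0 hb0
  · show Nat.Coprime (min a b) (max a b - min a b)
    rcases le_total a b with h1 | h1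
    · rw [max_eq_right h1, min_eq_left h1]
      exact (Nat.coprime_sub_self_right h1).2 hcop
    · rw [max_eq_left h1, min_eq_right h1]
      exact (Nat.coprime_sub_self_right h1).2 hcop.symm
  · show NB (n + 1) _ (min a b)
    rcases le_total a b with h1 | h1
    · rw [min_eq_left h1]; exact hNa.mono_n hY1 (Nat.le_succ n)
    · rw [min_eq_right h1]; exact hNb.mono_n hY1 (Nat.le_succ n)
  · exact (NB.one hq2pos hq2Y).mono_n hY1 (Nat.le_add_left 1 n)
  · rw [pr_sum]
    rcases le_total a b with h1 | h1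
    · rw [max_eq_right h1]; exact hNb.mono_n hY1 (Nat.le_succ n)
    · rw [max_eq_left h1]; exact hNa.mono_n hY1 (Nat.le_succ n)
  · rw [pr_sum]
    have h2 : |u| = (c : ℤ) * a := by
      rw [Int.abs_eq_natAbs, ha]
      push_cast
      ring
    have h4 : |u| ≤ 4 * H * ((max a b : ℕ) : ℤ) := by
      have h5 : (0 : ℤ) ≤ a := Int.natCast_nonneg a
      calc |u| = (c : ℤ) * a := h2
        _ ≤ (4 * H) * a := mul_le_mul_of_nonneg_right hc4 h5
        _ ≤ 4 * H * ((max a b : ℕ) : ℤ) := by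
            have h6 : (0 : ℤ) ≤ 4 * H := by linarith
            have h7 : (a : ℤ) ≤ ((max a b : ℕ) : ℤ) := by exact_mod_cast le_max_left a b
            exact mul_le_mul_of_nonneg_left h7 h6
    exact_mod_cast h4
  · have haq : (a : ℚ) ≠ 0 := by exact_mod_cast ha0.ne'
    have hbq : (b : ℚ) ≠ 0 := by exact_mod_cast hb0.ne'
    have hrat : (v : ℚ) * a = b * u := by
      have h1 : (v : ℤ) * a = b * u := by
        have h1 : ((u.natAbs : ℕ) : ℤ) = c * a := by rw [ha]; push_cast; ring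
        have h2 : ((v.natAbs : ℕ) : ℤ) = c * b := by rw [hb]; push_cast; ring
        rcases hsgn with h0 | h0
        · rw [Int.natCast_natAbs, abs_of_pos h0.1] at h1
          rw [Int.natCast_natAbs, abs_of_pos h0.2] at h2
          rw [h1, h2]; ring
        · rw [Int.natCast_natAbs, abs_of_neg h0.1] at h1
          rw [Int.natCast_natAbs, abs_of_neg h0.2] at h2
          have h3 : u = -(c * a) := by linarith
          have h4 : v = -(c * b) := by linarith
          rw [h3, h4]; ring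
      exact_mod_cast h1
    rw [pr_sum]
    show (v : ℚ) = ((max a b : ℕ) : ℚ) / ((min a b : ℕ) : ℚ) * u ∨
      (v : ℚ) = ((min a b : ℕ) : ℚ) / ((max a b : ℕ) : ℚ) * u
    rcases le_total a b with h1 | h1
    · left
      rw [max_eq_right h1, min_eq_left h1]
      field_simp
      linarith
    · right
      rw [max_eq_left h1, min_eq_right h1]
      field_simp
      linarith

end Pool.Agent.Q321.HL
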